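import Pool.Agent.helper76.UF.Spec

/-! # NRM: a prime factor of a Fermat number which is a norm -/

set_option autoImplicit false

namespace Pool.Agent.UF

open Finset Polynomial NumberField

private theorem NRM_field (m p : ℕ) (A : Type) [CommRing A] [IsDomain A] (hpA : (p : A) = 0)
    (hpf : p ∣ fer m) (y : A) (hy : y ^ 2 ^ m = -1) :
    ∃ t : ℕ, Odd t ∧ (2 : A) = y ^ t := by
  have h2 : (2 : A) ^ 2 ^ m = -1 := by
    obtain ⟨k, hk⟩ := hpf
    have h : ((fer m : ℕ) : A) = 0 := by rw [hk, Nat.cast_mul, hpA, zero_mul]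
    unfold fer at h
    push_cast at h
    exact eq_neg_of_add_eq_zero_left h
  have hne : (-1 : A) ≠ 1 := by
    intro h
    have h3 : (2 : A) = 0 := by
      have : (1 : A) + 1 = 0 := by
        nth_rw 1 [← h]
        exact neg_add_cancel 1
      rw [← this]
      norm_num
    rw [h3, zero_pow (by positivity)] at h2
    have h4 : (1 : A) = 0 := by
      rw [← neg_neg (1 : A), ← h2, neg_zero]
    exact one_ne_zero h4
  have hord : orderOf y = 2 ^ (m + 1) := by
    apply orderOf_eq_prime_pow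
    · rw [hy]
      exact hne
    · rw [pow_succ 2 m, pow_mul, hy]
      ring
  have hprim : IsPrimitiveRoot y (2 ^ (m + 1)) := by
    rw [← hord]
    exact IsPrimitiveRoot.orderOf y
  have h22 : (2 : A) ^ 2 ^ (m + 1) = 1 := by
    rw [pow_succ 2 m, pow_mul, h2]
    ring
  haveI : NeZero (2 ^ (m + 1)) := ⟨by positivity⟩
  obtain ⟨t, _, ht⟩ := hprim.eq_pow_of_pow_eq_one h22
  refine ⟨t, ?_, ht.symm⟩
  by_contra hodd
  rw [Nat.not_odd_iff_even] at hodd
  have h5 : (2 : A) ^ 2 ^ m = 1 := by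
    rw [← ht, ← pow_mul, mul_comm, pow_mul, hy]
    exact hodd.neg_one_pow
  exact hne (h2.symm.trans h5)

theorem NRM (h1 : BAS_stmt) (h2 : QUK_stmt) (h3 : IRR_stmt) : NRM_stmt := by
  intro m K _ _ _ p hp hpf w hw
  haveI : NeZero (2 ^ (m + 1)) := ⟨by positivity⟩
  have hζ := IsCyclotomicExtension.zeta_spec (2 ^ (m + 1)) ℚ K
  obtain ⟨z, hz⟩ : ∃ z : 𝓞 K, IsPrimitiveRoot z (2 ^ (m + 1)) :=
    ⟨hζ.toInteger, hζ.toInteger_isPrimitiveRoot⟩
  have hcyc := h1 m K z hz
  set I : Ideal (𝓞 K) := Ideal.span {w} with hI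
  have hnorm : Ideal.absNorm I = p := by
    rw [hI, Ideal.absNorm_span_singleton, hw]
  haveI hIp : I.IsPrime := by
    apply Ideal.isPrime_of_irreducible_absNorm
    rw [hnorm]
    exact hp
  have hpI : (p : 𝓞 K) ∈ I := by
    rw [← hnorm]
    exact Ideal.absNorm_mem I
  have hzm : (Ideal.Quotient.mk I z) ^ 2 ^ m = -1 := by
    rw [← map_pow, hcyc.1.1, map_neg, map_one]
  have hpq : (p : 𝓞 K ⧸ I) = 0 := by
    have := Ideal.Quotient.eq_zero_iff_mem.2 hpI
    rw [map_natCast] at this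
    exact this
  obtain ⟨t, ht, h2t⟩ := NRM_field m p (𝓞 K ⧸ I) hpq hpf _ hzm
  have hwd : w ∣ 2 - z ^ t := by
    rw [← Ideal.mem_span_singleton, ← Ideal.Quotient.eq_zero_iff_mem, map_sub, map_pow, ← h2t]
    rw [map_ofNat, sub_self]
  obtain ⟨s, hs⟩ := hcyc.2.2 t ht
  have hs2 : s (2 - z) = 2 - z ^ t := by rw [map_sub, hs, map_ofNat]
  have hirr : Irreducible (2 - z ^ t) := by
    rw [← hs2]
    exact (MulEquiv.irreducible_iff s).2 (h3 m K z hz)
  obtain ⟨v, hv⟩ := hwd
  have hwp : w ∣ (p : 𝓞 K) := Ideal.mem_span_singleton.1 hpI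
  rcases hirr.isUnit_or_isUnit hv with hu | hu
  · exfalso
    exact hIp.ne_top (Ideal.span_singleton_eq_top.2 hu)
  · have h4 : 2 - z ^ t ∣ (p : 𝓞 K) := by
      obtain ⟨u, hu'⟩ := hu
      have h5 : w = (2 - z ^ t) * (u⁻¹ : (𝓞 K)ˣ) := by
        rw [hv, ← hu', mul_assoc, Units.mul_inv, mul_one]
      exact (Dvd.intro _ h5.symm).trans hwp
    have h5 : 2 - z ∣ (p : 𝓞 K) := by
      have h6 := map_dvd s.symm h4
      rw [map_natCast, ← hs2, RingEquiv.symm_apply_apply] at h6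
      exact h6
    have hq := (h2 (2 ^ m) 1 2 (𝓞 K) z Nat.one_le_two_pow le_rfl (by rw [one_mul]; exact hcyc)).1
      (p : ℤ) (by
        unfold ff
        rw [pow_one, Int.cast_natCast]
        exact_mod_cast h5)
    have h7 : fer m ∣ p := by
      unfold fer
      exact_mod_cast hq
    rcases (Nat.dvd_prime hp).1 h7 with h8 | h8
    · exfalso
      unfold fer at h8
      have : 0 < 2 ^ 2 ^ m := by positivity
      omega
    · exact h8.symm

end Pool.Agent.UF
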